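import Pool.Agent.H709.HB.Pairs

set_option autoImplicit false

/-!
# The maximal complexity in Hamming balls at two radii

`K U y` is the length of a shortest description of the string `y` by the machine `U`, `Opt U` says that
`U` is an optimal plain machine (both in the library, `Pool/Graph/R_pool_sql_team_39128cda`). For a point
`x` of the cube `Fin n → Bool` the number `maxC U x d` is `M_x(d)`, the maximal complexity of the points
at Hamming distance at most `d` of `x`, and `vol n d` is the number `V(d)` of the points of a ball of
radius `d` (`Pool/Agent/H709/HB/Main.lean`, `Lym.lean`). `Adm n d e t u v` is the list of the conditions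
`log V(d) ≤ u`, `log V(e) ≤ v`, `u ≤ n`, `v ≤ n`, `v - u ≤ log V(e) - log V(d)` and
`log V(r) ≤ u → log V(r + (e - d)) ≤ v`, each up to the error `t` (`Pool/Agent/H709/HB/Pairs.lean`).

Theorem. With precision `O(log n)`, the pairs `(u, v)` that occur as `(M_x(d), M_x(e))` for a point `x` are
exactly the pairs with `Adm n d e`. Moreover every function `min n (s + log V(r + d))` occurs as `M_x`.

Proof of the necessity. Let `m = M_x(d)` and let `S` be the set of all `z` such that all points at
distance at most `d` of `z` have complexity at most `m`. This set is enumerable and contains `x`, and its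
`d`-neighbourhood has at most `2 ^ (m + 1)` points. Let `L_i` be the set of the points at distance exactly
`i` of `S`. Every point of `L_(i+1)` has at least `i + 1` neighbours in `L_i`, and every point of `L_i` has
at most `n - i` neighbours in `L_(i+1)`, so `|L_i| / (n choose i)` decreases, and so does the quotient of
the size of the `i`-neighbourhood of `S` by `V(i)`. Hence the `e`-neighbourhood of `S` has at most
`2 ^ (m + 1) V(e) / V(d)` points, and its members can be described by their numbers in an enumeration.
The last condition is Harper's theorem for the set of the points `z` with `M_z(e - d) ≤ M_x(e)`, which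
contains a point of complexity `M_x(d)`.

Proof of the sufficiency. For `s` and `r` one takes a computable family of `2 ^ s` balls of radius `r` such
that all neighbourhoods of their union are nearly as large as they can be; for a suitable centre `x` the
profile is `min n (s + log V(r + d))`. Along the pairs `(s, r)` with `s + log V(r + d) = u` the value at
`e` moves in steps `O(log n)` between the two bounds of the necessary conditions.
-/

namespace Pool.Agent.Results.MP_f4f1a8_lc.PairsOfRadii

open Pool.Agent.H.MP_d04dff_lc Pool.Agent.Lib.helper21.KC Pool.Agent.H709.HB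

theorem result (U : List Bool →. List Bool) (hU : Opt U) :
    (∃ c : ℝ, ∀ (n : ℕ) (x : Fin n → Bool) (d e : ℕ), d ≤ e → e ≤ n →
      Adm n d e (c * Real.logb 2 (2 + n)) (maxC U x d) (maxC U x e)) ∧
    (∀ c : ℝ, ∃ c' : ℝ, ∀ (n d e : ℕ) (u v : ℝ), d ≤ e → e ≤ n →
      Adm n d e (c * Real.logb 2 (2 + n)) u v → ∃ x : Fin n → Bool,
        |(maxC U x d : ℝ) - u| ≤ c' * Real.logb 2 (2 + n) ∧
        |(maxC U x e : ℝ) - v| ≤ c' * Real.logb 2 (2 + n)) ∧
    (∃ c : ℝ, ∀ n s r : ℕ, s ≤ n → 2 * r ≤ n → ∃ x : Fin n → Bool, ∀ d ≤ n,
      |(maxC U x d : ℝ) - min (n : ℝ) (s + Real.logb 2 (vol n (r + d)))| ≤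
        c * Real.logb 2 (2 + n)) :=
  ⟨adm_of hU, of_adm hU, realize hU⟩

end Pool.Agent.Results.MP_f4f1a8_lc.PairsOfRadii
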